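import Pool.Agent.Helper92.HX.Main
import Pool.Agent.Helper1.HX.Copy

/-!
# MP_bdb766_co: the exact value of `ex(n, C₆, C₈)` for all large `n`

`exC6C8 n` is the largest number of copies of the 6-cycle in an `n`-vertex graph without
8-cycle. It equals `(n - 5) ((n - 3) (n - 4) + 12)` for all sufficiently large `n`, and the
extremal graphs are exactly the graphs obtained from three vertices joined to everything by
adding one further edge.
-/

namespace Pool.Agent.Results.MP_bdb766_co.ExactHexagons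

open SimpleGraph Pool.Agent.Helper92.HX

/-- the generalized Turan number `ex(n, C₆, C₈)`: the largest number of (unlabelled) copies of
the 6-cycle in a graph on `n` vertices which contains no 8-cycle (`copyCount` and `Free` are
Mathlib's notions: number of subgraphs isomorphic to the 6-cycle, respectively no subgraph
isomorphic to the 8-cycle). -/
noncomputable def exC6C8 (n : ℕ) : ℕ :=
  sSup {k | ∃ G : SimpleGraph (Fin n), (cycleGraph 8).Free G ∧ G.copyCount (cycleGraph 6) = k}

/-- `G` is the graph in which the three vertices of a set `T` are joined to all other vertices,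
and which has exactly one more edge `uv`. -/
def IsExtremal {n : ℕ} (G : SimpleGraph (Fin n)) : Prop :=
  ∃ (T : Finset (Fin n)) (u v : Fin n), T.card = 3 ∧ u ∉ T ∧ v ∉ T ∧ u ≠ v ∧
    ∀ x y, G.Adj x y ↔ x ≠ y ∧ (x ∈ T ∨ y ∈ T ∨ (x = u ∧ y = v) ∨ (x = v ∧ y = u))

lemma isExtremal_iff {n : ℕ} (G : SimpleGraph (Fin n)) : IsExtremal G ↔
    ∃ (T : Finset (Fin n)) (u v : Fin n), T.card = 3 ∧ u ∉ T ∧ v ∉ T ∧ u ≠ v ∧
      G = Gam T u v := by
  constructor
  · rintro ⟨T, u, v, h1, h2, h3, h4, h5⟩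
    refine ⟨T, u, v, h1, h2, h3, h4, ?_⟩
    ext x y
    exact h5 x y
  · rintro ⟨T, u, v, h1, h2, h3, h4, h5⟩
    refine ⟨T, u, v, h1, h2, h3, h4, fun x y => ?_⟩
    rw [h5]
    exact Iff.rfl

theorem result : ∃ n₀ : ℕ, ∀ n, n₀ ≤ n →
    exC6C8 n = (n - 5) * ((n - 3) * (n - 4) + 12) ∧
    ∀ G : SimpleGraph (Fin n),
      ((cycleGraph 8).Free G ∧ G.copyCount (cycleGraph 6) = exC6C8 n) ↔ IsExtremal G := by
  classical
  obtain ⟨n₀, hn₀, hmain⟩ := main
  refine ⟨n₀, fun n hn => ?_⟩
  have hn6 : 1000000 ≤ n := hn₀.trans hn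
  set N := (n - 5) * ((n - 3) * (n - 4) + 12) with hN
  -- upper bound
  have hub : ∀ G : SimpleGraph (Fin n), (cycleGraph 8).Free G →
      G.copyCount (cycleGraph 6) ≤ N := by
    intro G hG
    have h1 := (hmain n hn G ((noC8_iff G).1 hG)).1
    have h2 := copy_count G
    omega
  -- the extremal graphs
  have hext : ∀ G : SimpleGraph (Fin n), IsExtremal G →
      (cycleGraph 8).Free G ∧ G.copyCount (cycleGraph 6) = N := by
    intro G hG
    obtain ⟨T, u, v, h1, h2, h3, h4, rfl⟩ := (isExtremal_iff G).1 hG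
    have h5 := gam_hexCount T h1 u v h2 h3 h4
    rw [Fintype.card_fin] at h5
    have h6 := copy_count (Gam T u v)
    exact ⟨(noC8_iff _).2 (gam_noC8 T h1 u v), by omega⟩
  have hexists : ∃ G : SimpleGraph (Fin n), IsExtremal G := by
    set a : Fin n := ⟨0, by omega⟩
    set b : Fin n := ⟨1, by omega⟩
    set c : Fin n := ⟨2, by omega⟩
    set u : Fin n := ⟨3, by omega⟩
    set v : Fin n := ⟨4, by omega⟩
    refine ⟨Gam {a, b, c} u v, (isExtremal_iff _).2 ⟨{a, b, c}, u, v, ?_, ?_, ?_, ?_, rfl⟩⟩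
    · rw [Finset.card_eq_three]
      exact ⟨a, b, c, by simp [a, b], by simp [a, c], by simp [b, c], rfl⟩
    · simp [a, b, c, u]
    · simp [a, b, c, v]
    · simp [u, v]
  have hgreat : IsGreatest {k | ∃ G : SimpleGraph (Fin n), (cycleGraph 8).Free G ∧
      G.copyCount (cycleGraph 6) = k} N := by
    constructor
    · obtain ⟨G, hG⟩ := hexists
      exact ⟨G, hext G hG⟩
    · rintro k ⟨G, hG, rfl⟩
      exact hub G hG
  have hval : exC6C8 n = N := hgreat.csSup_eq
  refine ⟨hval, fun G => ?_⟩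
  rw [hval]
  refine ⟨fun ⟨h1, h2⟩ => ?_, hext G⟩
  rw [isExtremal_iff]
  refine (hmain n hn G ((noC8_iff G).1 h1)).2 ?_
  have h3 := copy_count G
  omega

end Pool.Agent.Results.MP_bdb766_co.ExactHexagons
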